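import Mathlib
import Pool.Agent.Helper7.GW.AResult

/-!
# Zero-free disks of `L_E` and Gamma means of `log P_E`
-/

namespace Pool.Agent.Helper29.Old.GammaMeansAd1693

/-- `P(x) = ∏_{p < x, p ∤ Δ} N_p / p`. -/
noncomputable def P (W : WeierstrassCurve ℤ) (N : ℕ → ℕ) (x : ℝ) : ℝ :=
  ∏ p ∈ (Finset.range ⌈x⌉₊).filter (fun p : ℕ => Nat.Prime p ∧ ¬ (((p : ℕ) : ℤ) ∣ W.Δ)), ((N p : ℝ) / (p : ℝ))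

/-- `M_j(w) = ∫_0^∞ log P(e^t) w (wt)^j e^{-wt} / j! dt`. -/
noncomputable def M (W : WeierstrassCurve ℤ) (N : ℕ → ℕ) (w : ℝ) (j : ℕ) : ℝ :=
  ∫ t in Set.Ioi (0 : ℝ), Real.log (P W N (Real.exp t)) * (w * (w * t) ^ j / (j.factorial : ℝ) * Real.exp (-w * t))

theorem result :
  ∀ (W : WeierstrassCurve ℤ), W.Δ ≠ 0 →
  ∀ (N : ℕ → ℕ), (∀ p : ℕ, N p = 1 + ((Finset.range p ×ˢ Finset.range p).filter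
      (fun q : ℕ × ℕ => (p : ℤ) ∣ ((q.2 : ℤ) ^ 2 + W.a₁ * (q.1 : ℤ) * (q.2 : ℤ) + W.a₃ * (q.2 : ℤ)
        - ((q.1 : ℤ) ^ 3 + W.a₂ * (q.1 : ℤ) ^ 2 + W.a₄ * (q.1 : ℤ) + W.a₆)))).card) →
  ∀ (F : ℂ → ℂ), Differentiable ℂ F →
  (∀ s : ℂ, 3 / 2 < s.re →
    HasProd (fun p : Nat.Primes =>
      if (((p : ℕ) : ℤ) ∣ W.Δ) then (1 : ℂ)
      else (1 - (((p : ℕ) : ℂ) + 1 - ((N (p : ℕ) : ℕ) : ℂ)) * ((p : ℕ) : ℂ) ^ (-s)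
              + ((p : ℕ) : ℂ) ^ (1 - 2 * s))⁻¹) (F s)) →
  (∀ w : ℝ, 1 / 2 < w →
    ((∀ ρ : ℂ, ‖ρ - (1 + w)‖ < w → F ρ ≠ 0) ↔
      ∃ K : ℝ, ∀ j : ℕ, 1 ≤ j → |M W N w j - (analyticOrderNatAt F 1) * Real.log j| ≤ K) ∧
    ((∀ ρ : ℂ, ‖ρ - (1 + w)‖ < w → F ρ ≠ 0) ↔
      ∀ ε : ℝ, 0 < ε → ∀ᶠ j : ℕ in Filter.atTop, M W N w j ≤ Real.exp (ε * j))) ∧
  ((∀ ρ : ℂ, 1 < ρ.re → F ρ ≠ 0) ↔ ∀ w : ℝ, 1 / 2 < w →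
      ∃ K : ℝ, ∀ j : ℕ, 1 ≤ j → |M W N w j - (analyticOrderNatAt F 1) * Real.log j| ≤ K) ∧
  ((∀ ρ : ℂ, 1 < ρ.re → F ρ ≠ 0) ↔ ∀ w0 : ℝ, ∃ w : ℝ, w0 < w ∧
      ∀ ε : ℝ, 0 < ε → ∀ᶠ j : ℕ in Filter.atTop, M W N w j ≤ Real.exp (ε * j)) := by
  intro W hΔ N hN F hFd hF
  exact Pool.Agent.Helper7.GW.criterion W N hΔ hN F hFd hF

end Pool.Agent.Helper29.Old.GammaMeansAd1693
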